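import Pool.Agent.Helper69.SW.St

/-! # Project SW, module B2: supersolution for the tail -/

set_option autoImplicit false

open scoped BigOperators ENNReal Topology
open Pool.LE Pool.NL Pool.CL Pool.CB Filter

namespace Pool.SW

namespace B2M

private theorem AL_mul {d : ℕ} (κ : ℝ) (g : Zd d → ℝ) (x : Zd d) :
    AL (fun y => κ * g y) x = κ * AL g x := by
  unfold AL
  rw [← Finset.mul_sum]
  ring

private theorem pw1 {R : ℝ} (hR : 1 ≤ R) : (R ^ (-(4 : ℝ))) ^ (11 / 16 : ℝ) = R ^ (-(11 / 4) : ℝ) := by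
  rw [← Real.rpow_mul (by linarith)]
  norm_num

private theorem pw2 {R : ℝ} (hR : 1 ≤ R) :
    R ^ (-(2 : ℝ)) * R ^ (-(11 / 4) : ℝ) = R ^ (-(19 / 4) : ℝ) := by
  rw [← Real.rpow_add (by linarith)]
  norm_num

private theorem pw3 {R : ℝ} (hR : 1 ≤ R) : (R ^ (-(11 / 4) : ℝ)) ^ 2 ≤ R ^ (-(19 / 4) : ℝ) := by
  have h0 : (0 : ℝ) < R := by linarith
  rw [← Real.rpow_natCast, ← Real.rpow_mul h0.le]
  apply Real.rpow_le_rpow_of_exponent_le hR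
  norm_num

/-- the final inequality -/
private theorem arith {n c θ η V κ z C Q c₁ A : ℝ} (hc : 0 < c) (hθ : 0 < θ)
    (hV : 0 < V) (hκ : 0 < κ) (hQ : 0 < Q) (hz2 : z ^ 2 ≤ C ^ 2 * Q)
    (hη : c * (θ * η) ≤ κ * c₁ / 2) (hκ2 : c * (V / 2 * κ ^ 2 * C ^ 2) ≤ κ * c₁ / 2)
    (hA : c₁ / n ^ 2 * Q ≤ A) :
    c / n ^ 2 * (θ * (η * Q) + V / 2 * (κ * z) ^ 2) ≤ κ * A := by
  have h1 : c / n ^ 2 * (θ * (η * Q) + V / 2 * (κ * z) ^ 2) ≤ κ * (c₁ / n ^ 2 * Q) := by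
    have h2 : V / 2 * (κ * z) ^ 2 ≤ V / 2 * κ ^ 2 * C ^ 2 * Q := by
      calc V / 2 * (κ * z) ^ 2 = (V / 2 * κ ^ 2) * z ^ 2 := by ring
        _ ≤ (V / 2 * κ ^ 2) * (C ^ 2 * Q) := mul_le_mul_of_nonneg_left hz2 (by positivity)
        _ = V / 2 * κ ^ 2 * C ^ 2 * Q := by ring
    have h3 : c * (θ * (η * Q) + V / 2 * (κ * z) ^ 2) ≤ κ * c₁ * Q := by
      calc c * (θ * (η * Q) + V / 2 * (κ * z) ^ 2)
          ≤ c * (θ * (η * Q) + V / 2 * κ ^ 2 * C ^ 2 * Q) :=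
            mul_le_mul_of_nonneg_left (by linarith) hc.le
        _ = (c * (θ * η) + c * (V / 2 * κ ^ 2 * C ^ 2)) * Q := by ring
        _ ≤ (κ * c₁) * Q := mul_le_mul_of_nonneg_right (by linarith) hQ.le
    have h4 : 0 ≤ 1 / n ^ 2 := by positivity
    calc c / n ^ 2 * (θ * (η * Q) + V / 2 * (κ * z) ^ 2)
        = (1 / n ^ 2) * (c * (θ * (η * Q) + V / 2 * (κ * z) ^ 2)) := by ring
      _ ≤ (1 / n ^ 2) * (κ * c₁ * Q) := mul_le_mul_of_nonneg_left h3 h4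
      _ = κ * (c₁ / n ^ 2 * Q) := by ring
  exact h1.trans (mul_le_mul_of_nonneg_left hA hκ.le)

end B2M

open B2M

theorem hB2 (hzt : Stzt) (hCon : StCon) (hRR : StRR) : StB2 := by
  intro d V c θ hd hV hc hθ
  obtain ⟨cz, C, hcz, hC, n₀, hn₀, hz⟩ := hzt d hd
  have hC0 : 0 < C := by linarith
  have hCs : 0 < C ^ (-(11 / 16) : ℝ) := Real.rpow_pos_of_pos hC0 _
  obtain ⟨c₁, hc₁⟩ : ∃ c₁ : ℝ, c₁ = 11 / 16 * cz * C ^ (-(11 / 16) : ℝ) := ⟨_, rfl⟩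
  have hc₁0 : 0 < c₁ := by rw [hc₁]; positivity
  obtain ⟨κ, hκ⟩ : ∃ κ : ℝ, κ = c₁ / (c * V * C ^ 2) := ⟨_, rfl⟩
  have hκ0 : 0 < κ := by rw [hκ]; positivity
  refine ⟨κ, κ * c₁ / (2 * c * θ), C, hκ0, by positivity, hC, n₀, hn₀, ?_⟩
  intro n hn
  have hn1 : 1 ≤ n := hn₀.trans hn
  obtain ⟨hr, -⟩ := hRR d n (by omega) hn1
  have hfirst : ∀ x : Zd d, zt n x ^ (11 / 16 : ℝ) ≤ C * rr n x ^ (-(11 / 4) : ℝ) := by
    intro x
    obtain ⟨hz0, -, hz2, -, -⟩ := hz n hn x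
    have hR : 1 ≤ rr n x := (hr x).1
    have hR0 : 0 < rr n x := by linarith
    calc zt n x ^ (11 / 16 : ℝ) ≤ (C * rr n x ^ (-(4 : ℝ))) ^ (11 / 16 : ℝ) :=
          Real.rpow_le_rpow hz0.le hz2 (by norm_num)
      _ = C ^ (11 / 16 : ℝ) * rr n x ^ (-(11 / 4) : ℝ) := by
          rw [Real.mul_rpow hC0.le (Real.rpow_nonneg hR0.le _), pw1 hR]
      _ ≤ C * rr n x ^ (-(11 / 4) : ℝ) := by
          apply mul_le_mul_of_nonneg_right _ (Real.rpow_nonneg hR0.le _)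
          calc C ^ (11 / 16 : ℝ) ≤ C ^ (1 : ℝ) :=
                Real.rpow_le_rpow_of_exponent_le hC (by norm_num)
            _ = C := Real.rpow_one C
  refine ⟨hfirst, ?_⟩
  intro η L hη0 hη
  refine ⟨fun x => mul_nonneg hκ0.le (Real.rpow_nonneg (hz n hn x).1.le _), ?_⟩
  intro x _
  obtain ⟨hz0, hz1, hz2, hz3, hz4⟩ := hz n hn x
  have hR : 1 ≤ rr n x := (hr x).1
  have hR0 : 0 < rr n x := by linarith
  rw [AL_mul κ (fun y => zt n y ^ (11 / 16 : ℝ)) x]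
  refine arith (C := C) (c₁ := c₁) (V := V) hc hθ hV hκ0 (Real.rpow_pos_of_pos hR0 _) ?_ ?_ ?_ ?_
  · calc (zt n x ^ (11 / 16 : ℝ)) ^ 2 ≤ (C * rr n x ^ (-(11 / 4) : ℝ)) ^ 2 :=
          pow_le_pow_left₀ (Real.rpow_nonneg hz0.le _) (hfirst x) 2
      _ = C ^ 2 * (rr n x ^ (-(11 / 4) : ℝ)) ^ 2 := by ring
      _ ≤ C ^ 2 * rr n x ^ (-(19 / 4) : ℝ) :=
          mul_le_mul_of_nonneg_left (pw3 hR) (by positivity)
  · calc c * (θ * η) ≤ c * (θ * (κ * c₁ / (2 * c * θ))) := by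
          apply mul_le_mul_of_nonneg_left _ hc.le
          exact mul_le_mul_of_nonneg_left hη hθ.le
      _ = κ * c₁ / 2 := by field_simp
  · have h1 : κ * (c * V * C ^ 2) = c₁ := by
      rw [hκ]
      field_simp
    calc c * (V / 2 * κ ^ 2 * C ^ 2) = κ * (κ * (c * V * C ^ 2)) / 2 := by ring
      _ = κ * c₁ / 2 := by rw [h1]
      _ ≤ κ * c₁ / 2 := le_refl _
  · have h1 := hCon d (zt n) (11 / 16) x (fun y => (hz n hn y).1) (by norm_num) (by norm_num)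
    refine le_trans ?_ h1
    have h2 : (rr n x ^ (-(11 / 4) : ℝ)) * C ^ (-(11 / 16) : ℝ) ≤ zt n x ^ (11 / 16 : ℝ) := by
      have h3 : rr n x ^ (-(4 : ℝ)) * C⁻¹ ≤ zt n x := by
        rw [← div_eq_mul_inv, div_le_iff₀ hC0]
        linarith
      calc (rr n x ^ (-(11 / 4) : ℝ)) * C ^ (-(11 / 16) : ℝ)
          = (rr n x ^ (-(4 : ℝ)) * C⁻¹) ^ (11 / 16 : ℝ) := by
            rw [Real.mul_rpow (Real.rpow_nonneg hR0.le _) (by positivity), pw1 hR,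
              Real.inv_rpow hC0.le, ← Real.rpow_neg hC0.le]
        _ ≤ zt n x ^ (11 / 16 : ℝ) :=
            Real.rpow_le_rpow (by positivity) h3 (by norm_num)
    have h4 : zt n x ^ ((11 / 16 : ℝ) - 1) * zt n x = zt n x ^ (11 / 16 : ℝ) := by
      rw [Real.rpow_sub_one hz0.ne']
      field_simp
    have h5 : 0 ≤ 11 / 16 * zt n x ^ ((11 / 16 : ℝ) - 1) := by positivity
    calc c₁ / (n : ℝ) ^ 2 * rr n x ^ (-(19 / 4) : ℝ)
        = 11 / 16 * cz / (n : ℝ) ^ 2 * rr n x ^ (-(2 : ℝ)) *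
            ((rr n x ^ (-(11 / 4) : ℝ)) * C ^ (-(11 / 16) : ℝ)) := by
          rw [hc₁, ← pw2 hR]
          ring
      _ ≤ 11 / 16 * cz / (n : ℝ) ^ 2 * rr n x ^ (-(2 : ℝ)) * zt n x ^ (11 / 16 : ℝ) := by
          apply mul_le_mul_of_nonneg_left h2
          have := Real.rpow_nonneg hR0.le (-(2 : ℝ))
          positivity
      _ = 11 / 16 * zt n x ^ ((11 / 16 : ℝ) - 1) *
            (cz / (n : ℝ) ^ 2 * (rr n x ^ (-(2 : ℝ)) * zt n x)) := by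
          rw [← h4]
          ring
      _ ≤ 11 / 16 * zt n x ^ ((11 / 16 : ℝ) - 1) * AL (zt n) x :=
          mul_le_mul_of_nonneg_left hz4 h5

end Pool.SW
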